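import Pool.Agent.Lib.MP_5c318e_ag.O.KOrth
import Pool.Agent.Lib.MP_5c318e_ag.Ku.KGram
import Pool.Agent.Lib.MP_5c318e_ag.G.Pkg

/-! A line of invariant classes in a Kummer variation gives a Hodge line. -/

set_option autoImplicit false
set_option linter.unusedSectionVars false

namespace Pool.Agent.Lib.MP_5c318e_ag.Ku

open Matrix Filter Topology MeasureTheory Set
open Pool.Agent.Lib.MP_5c318e_ag.V
open scoped ENNReal

noncomputable section

variable {A R ν κ ι X : Type} [NormedAddCommGroup A] [NormedSpace ℂ A] [CommRing R] [Fintype ν]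
  [Fintype κ] [Fintype ι] [TopologicalSpace X] [MeasurableSpace X] {D : RD ι X} {C : FC A R ν}
  {q : MvPolynomial (κ × Option ν) R} {M n w : ℕ} {S : Set A}

theorem plot_at {j : X → A} (hj : ∀ y, Plot S (fun z => j (D.sec y z)) (D.π y)) (y : X)
    {z : ι → ℂ} (hz : z ∈ (D.ch y).target) : Plot S (fun z => j (D.sec y z)) z := by
  have a := hj (D.sec y z)
  rw [RD.π_sec hz] at a
  have e := RD.germ_f j hz
  exact ⟨a.1.congr e.symm, by filter_upwards [a.2, e] with _ b c using c ▸ b⟩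

theorem closure_of_dense {P : Set X} (hP : Dense P) (y : X) :
    (D.ch y).target ⊆ closure {z | z ∈ (D.ch y).target ∧ D.sec y z ∈ P} := fun z hz => by
  have a : ∃ᶠ x in 𝓝 (D.sec y z), x ∈ P := mem_closure_iff_frequently.1 (hP _)
  have b : Tendsto D.π (𝓝 (D.sec y z)) (𝓝 z) := by
    have := (D.cont_π.tendsto (D.sec y z))
    rwa [RD.π_sec hz] at this
  refine mem_closure_iff_frequently.2 (b.frequently ((a.and_eventually
    ((D.ch y).open_source.mem_nhds (RD.sec_mem hz))).mono fun x h => ⟨RD.π_mem h.2, ?_⟩))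
  rw [RD.sec_π h.2]
  exact h.1

/-- the class of an invariant family `φ0` that spans the invariant part -/
theorem Kum.line (K : Kum C q M S n w) (hS : S ⊆ C.S0) (hM : 0 < M) (G : Subgroup (Equiv.Perm κ))
    (hG : ∀ σ ∈ G, ∀ a ∈ S, ∀ p ∈ C.Fk a, ‖C.evp a (fun k => p (σ k)) q‖ = ‖C.evp a p q‖)
    {j : X → A} (hj : ∀ y, Plot S (fun z => j (D.sec y z)) (D.π y))
    {φ0 : A → (κ → Vp ν) → ℂ}
    (hol : ∀ (φ : (ι → ℂ) → A) O e, Plot S φ e → ∀ p ∈ C.Fk (φ e),
      HolAt (C.tot φ O) (fun y => φ0 (φ y.1) y.2) (e, p))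
    (inv : ∀ σ ∈ G, ∀ a p, φ0 a (fun k => p (σ k)) = φ0 a p) {Dn : X → ℝ≥0∞}
    (hD : ∀ y, ∫⁻ p, ENNReal.ofReal (‖φ0 (j y) p‖ ^ 2 * C.wt q M (j y) p) ∂C.μk (j y) = Dn y)
    (bd : ∀ y, ∃ c, c ≠ ⊤ ∧ ∀ᶠ y' in 𝓝 y, Dn y' ≤ c) (pos : ∀ y, Dn y ≠ 0)
    (full : Dense {y | Full C q M G (j y) fun _ : Unit => φ0 (j y)}) :
    ∃ u : X → Fin n → ℂ, (∀ y, DifferentiableAt ℂ
      (fun z => cx (K.W.κ (j y) (j (D.sec y z))) *ᵥ u (D.sec y z)) (D.π y)) ∧
      (∀ y, K.W.π w (j y) *ᵥ u y = u y) ∧ (∀ y, u y ≠ 0) ∧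
      (∀ y ξ, ∃ a : ℂ, K.W.π w (j y) *ᵥ fderiv ℂ
        (fun z => cx (K.W.κ (j y) (j (D.sec y z))) *ᵥ u (D.sec y z)) (D.π y) ξ = a • u y) ∧
      ∀ y, (qf (K.W.H (j y)) (u y) (u y)).re = (Dn y).toReal := by
  have hP := plot_at hj
  have mS : ∀ y, j y ∈ S := fun y => by simpa only [D.sec_self] using (hj y).2.self_of_nhds
  have fam := fun y => K.fam_cl (ι → ℂ) volume (fun z => j (D.sec y z)) (D.ch y).target
    (fun t => φ0 (j (D.sec y t.1)) t.2) (D.ch y).open_target (fun _ he => hP y he)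
    (fun e he p hp => hol _ _ e (hP y he) p hp.1) fun e he => by
      obtain ⟨c, c0, hc⟩ := bd (D.sec y e)
      obtain ⟨r, r0, hr⟩ := Metric.eventually_nhds_iff_ball.1 ((RD.sec_contAt he).eventually hc)
      refine ⟨Metric.ball e r, Metric.ball_mem_nhds e r0, ?_⟩
      simp only [hD]
      refine lt_of_le_of_lt (setLIntegral_mono' (g := fun _ => c) measurableSet_ball hr) ?_
      rw [setLIntegral_const]
      exact ENNReal.mul_lt_top c0.lt_top measure_ball_lt_top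
  have top := fun y => (fam y).1 _ (D.mem_tgt y)
  have mem := fun y => (fam y).2 _ (D.mem_tgt y)
  simp only [D.sec_self] at top mem
  have gr : ∀ y, ENNReal.ofReal (K.W.nv (j y) (K.cl (j y) (φ0 (j y)))) = M * Dn y := fun y => by
    simpa only [Finset.univ_unique, Finset.sum_singleton, Pi.one_apply, one_mul, one_smul, hD]
      using (K.gram hS (mS y) (l := Unit) (fun _ => mem y) 1).2
  have ne : ∀ y, K.cl (j y) (φ0 (j y)) ≠ 0 := fun y h => by
    have := gr y
    rw [h, VHS.nv, qf, mulVec_zero, dotProduct_zero, Complex.zero_re, ENNReal.ofReal_zero] at this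
    exact mul_ne_zero (Nat.cast_ne_zero.2 hM.ne') (pos y) this.symm
  have M0 : (0 : ℝ) < M := Nat.cast_pos.2 hM
  set s : ℂ := (((√M)⁻¹ : ℝ) : ℂ) with hs
  have s0 : s ≠ 0 := Complex.ofReal_ne_zero.2 (inv_ne_zero (Real.sqrt_pos.2 M0).ne')
  refine ⟨fun y => s • K.cl (j y) (φ0 (j y)), fun y => ?_, fun y => ?_,
    fun y => smul_ne_zero s0 (ne y), fun y ξ => ?_, fun y => ?_⟩
  · simp only [mulVec_smul]
    exact (top y).1.differentiableAt.const_smul s
  · rw [mulVec_smul, (top y).2]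
  · obtain ⟨c, hc⟩ := K.orth hS G hG (D.ch y).open_target (fun _ he => hP y he) (l := Unit)
      (Φ := fun _ t => φ0 (j (D.sec y t.1)) t.2) (fun _ e he p hp _ => hol _ _ e (hP y he) p hp)
      (fun _ σ hσ e p => inv σ hσ _ p) (fun _ => (fam y).2) (fun _ => (fam y).1)
      (fun e _ => linearIndependent_unique_iff.2 (ne _)) (closure_of_dense full y) (D.mem_tgt y) ξ ()
    simp only [D.sec_self, Finset.univ_unique, Finset.sum_singleton] at hc
    refine ⟨c (), ?_⟩
    simp only [mulVec_smul]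
    rw [fderiv_fun_const_smul (top y).1.differentiableAt, _root_.smul_apply,
      mulVec_smul, hc, smul_comm]
  · have a := congrArg ENNReal.toReal (gr y)
    have p : 0 ≤ K.W.nv (j y) (K.cl (j y) (φ0 (j y))) :=
      qf_nonneg (K.W.phs _ (mS y)).pos _
    rw [ENNReal.toReal_ofReal p, ENNReal.toReal_mul, ENNReal.toReal_natCast, VHS.nv, qf] at a
    rw [qf, mulVec_smul, star_smul, smul_dotProduct, dotProduct_smul, smul_smul, hs,
      Complex.star_def, Complex.conj_ofReal, ← Complex.ofReal_mul, smul_eq_mul,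
      Complex.re_ofReal_mul, a, ← mul_inv, Real.mul_self_sqrt M0.le, inv_mul_cancel_left₀ M0.ne']

end

end Pool.Agent.Lib.MP_5c318e_ag.Ku
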