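import Pool.Agent.Lib.MP_5c318e_ag.O.KOrth
import Pool.Agent.Lib.MP_5c318e_ag.Ku.KFam
import Pool.Agent.Lib.MP_5c318e_ag.N.Det

/-! The determinant of a frame at `r` points of the fibre spans the invariant part. -/

set_option autoImplicit false
set_option linter.unusedSectionVars false

namespace Pool.Agent.Lib.MP_5c318e_ag.Ku

open Matrix Filter Topology MeasureTheory Set MvPolynomial
open Pool.Agent.Lib.MP_5c318e_ag.V
open scoped ENNReal

noncomputable section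

section alg

variable {r : Type} [Fintype r] [DecidableEq r]

/-- antisymmetrisation of a tensor -/
theorem sum_sign (t : (r → r) → ℂ) (f : r → r → ℂ) :
    ∑ σ : Equiv.Perm r, ((Equiv.Perm.sign σ : ℤ) : ℂ) * ∑ I, t I * ∏ k, f (σ k) (I k) =
      (∑ I, t I * (Matrix.of fun i l => if I l = i then (1 : ℂ) else 0).det) * (Matrix.of f).det := by
  simp only [Finset.mul_sum, Finset.sum_mul]
  rw [Finset.sum_comm]
  refine Finset.sum_congr rfl fun I _ => ?_
  rw [mul_assoc, mul_comm (det _), ← det_mul, det_apply', Finset.mul_sum]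
  refine Finset.sum_congr rfl fun σ _ => ?_
  rw [mul_left_comm]
  simp [mul_apply]

theorem det_eq_sum (f : r → r → ℂ) : (Matrix.of f).det = ∑ I : r → r,
    (∑ σ : Equiv.Perm r, if ⇑σ = I then ((Equiv.Perm.sign σ : ℤ) : ℂ) else 0) * ∏ k, f k (I k) := by
  simp only [Finset.sum_mul, ite_mul, zero_mul]
  rw [Finset.sum_comm, ← det_transpose, det_apply']
  simp

theorem rpow_aux {x P c0 : ℝ≥0∞} (h : x ≤ c0 * P) (hx : x ≠ ⊤) {c : ℝ} (h0 : 0 ≤ c) :
    x * P ^ (-c) ≤ c0 ^ c * x ^ (1 - c) := by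
  rcases eq_or_ne x 0 with rfl | x0
  · simp
  calc x * P ^ (-c) = x ^ (1 - c) * (x ^ c * P ^ (-c)) := by
        rw [← mul_assoc, ← ENNReal.rpow_add _ _ x0 hx, sub_add_cancel, ENNReal.rpow_one]
    _ ≤ x ^ (1 - c) * (c0 ^ c * (P ^ c * (P ^ c)⁻¹)) := by
        rw [ENNReal.rpow_neg, ← mul_assoc (c0 ^ c), ← ENNReal.mul_rpow_of_nonneg _ _ h0]
        gcongr
    _ ≤ x ^ (1 - c) * (c0 ^ c * 1) := by
        gcongr
        exact ENNReal.mul_inv_le_one _
    _ = _ := by rw [mul_one, mul_comm]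

theorem enorm_sq_le (v : r → ℂ) : ‖v‖ₑ ^ 2 ≤ ENNReal.ofReal (∑ i, ‖v i‖ ^ 2) := by
  have h : 0 ≤ ∑ i, ‖v i‖ ^ 2 := by positivity
  rw [← ofReal_norm, ← ENNReal.ofReal_pow (norm_nonneg _)]
  refine ENNReal.ofReal_le_ofReal ((Real.le_sqrt (norm_nonneg _) h).1 ?_)
  exact (pi_norm_le_iff_of_nonneg (Real.sqrt_nonneg _)).2 fun i => Real.le_sqrt_of_sq_le
    (Finset.single_le_sum (f := fun i => ‖v i‖ ^ 2) (fun _ _ => by positivity) (Finset.mem_univ i))

theorem det_wt_le (f : r → r → ℂ) {c : ℝ} (h0 : 0 ≤ c) :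
    ‖(Matrix.of f).det‖ₑ ^ 2 * ∏ k, ENNReal.ofReal (∑ i, ‖f k i‖ ^ 2) ^ (-c) ≤
      (((Fintype.card r).factorial : ℝ≥0∞) ^ 2) ^ c * ‖(Matrix.of f).det‖ₑ ^ (2 * (1 - c)) := by
  rw [ENNReal.prod_rpow_of_ne_top fun _ _ => ENNReal.ofReal_ne_top, ENNReal.rpow_mul,
    ENNReal.rpow_two]
  refine rpow_aux ((pow_le_pow_left' (N.enorm_det_le f) 2).trans ?_) (by finiteness) h0
  rw [mul_pow, ← Finset.prod_pow]
  gcongr with k
  exact enorm_sq_le _

end alg

variable {A R ν : Type} [NormedAddCommGroup A] [NormedSpace ℂ A] [CommRing R] [Fintype ν]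
  (C : FC A R ν) {r : ℕ} (Q : Fin r → MvPolynomial (Option ν) R) (j m : ℕ)

namespace FC

/-- the product of the discriminants of the slots -/
def Dp (κ : Type) [Fintype κ] : MvPolynomial (κ × Option ν) R :=
  ∏ k, rename (fun l => (k, some l)) C.Δ

/-- the frame -/
def tf (a : A) (u : Vp ν) (i : Fin r) : ℂ := C.frac (Q i) j a u

/-- the polynomial under the root -/
def qs : MvPolynomial (Fin r × Option ν) R :=
  (Matrix.of fun k i => rename (Prod.mk k) (Q i)).det * C.Dp (Fin r) ^ (j * (m - 1))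

/-- the generator -/
def φs (κ : Type) [Fintype κ] (a : A) (p : κ → Vp ν) : ℂ := 1 / C.evp a p (C.Dp κ ^ j)

variable {C} {a : A} {κ : Type} [Fintype κ]

theorem evp_slot (p : κ → Vp ν) (k : κ) :
    C.evp a p (rename (fun l => (k, some l)) C.Δ) = eval₂ (C.ev a) (p k).1 C.Δ := by
  rw [evp, eval₂Hom_rename]
  rfl

theorem evp_Dp (p : κ → Vp ν) : C.evp a p (C.Dp κ) = ∏ k, eval₂ (C.ev a) (p k).1 C.Δ := by
  simp only [Dp, map_prod, evp_slot]

theorem Dp_ne {p : κ → Vp ν} (hp : p ∈ C.Fk a) : C.evp a p (C.Dp κ) ≠ 0 := by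
  rw [evp_Dp]
  exact Finset.prod_ne_zero_iff.2 fun k _ => (hp k).1

theorem Dp_perm (p : κ → Vp ν) (σ : Equiv.Perm κ) :
    C.evp a (fun k => p (σ k)) (C.Dp κ) = C.evp a p (C.Dp κ) := by
  rw [evp_Dp, evp_Dp]
  exact Equiv.prod_comp σ fun k => eval₂ (C.ev a) (p k).1 C.Δ

theorem evp_det {p : Fin r → Vp ν} (hp : p ∈ C.Fk a) :
    C.evp a p (Matrix.of fun k i => rename (Prod.mk k) (Q i)).det =
      N.dt (C.tf Q j a) p * C.evp a p (C.Dp (Fin r)) ^ j := by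
  rw [RingHom.map_det, evp_Dp, ← Finset.prod_pow, mul_comm, N.dt, ← det_mul_column]
  congr 1
  ext k i
  simp only [RingHom.mapMatrix_apply, map_apply, of_apply, tf, C.frac_eq, evp_slot]
  rw [mul_div_cancel₀ _ (pow_ne_zero _ (hp k).1)]

theorem evp_qs {m : ℕ} (hm : 0 < m) {p : Fin r → Vp ν} (hp : p ∈ C.Fk a) :
    C.evp a p (C.qs Q j m) = N.dt (C.tf Q j a) p * (C.evp a p (C.Dp (Fin r)) ^ j) ^ m := by
  obtain ⟨k, rfl⟩ := Nat.exists_eq_succ_of_ne_zero hm.ne'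
  rw [qs, map_mul, evp_det Q j hp, map_pow, Nat.succ_sub_one, Nat.succ_eq_add_one]
  ring

theorem dt_perm {Ω : Type} (τ : Ω → Fin r → ℂ) (p : Fin r → Ω) (σ : Equiv.Perm (Fin r)) :
    N.dt τ (fun k => p (σ k)) = ((Equiv.Perm.sign σ : ℤ) : ℂ) * N.dt τ p :=
  det_permute σ (Matrix.of fun k => τ (p k))

theorem qs_perm {m : ℕ} (hm : 0 < m) {p : Fin r → Vp ν} (hp : p ∈ C.Fk a) (σ : Equiv.Perm (Fin r)) :
    ‖C.evp a (fun k => p (σ k)) (C.qs Q j m)‖ = ‖C.evp a p (C.qs Q j m)‖ := by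
  rw [evp_qs Q j hm hp, evp_qs Q j hm fun k => hp (σ k), Dp_perm, dt_perm]
  rcases Int.units_eq_one_or (Equiv.Perm.sign σ) with h | h <;> simp [h]

theorem wt_qs {m : ℕ} (hm : 0 < m) {p : Fin r → Vp ν} (hp : p ∈ C.Fk a) :
    C.wt (C.qs Q j m) m a p =
      ‖C.evp a p (C.Dp (Fin r)) ^ j‖ ^ 2 * ‖N.dt (C.tf Q j a) p‖ ^ (2 / m : ℝ) := by
  have m0 : (m : ℝ) ≠ 0 := Nat.cast_ne_zero.2 hm.ne'
  rw [wt, evp_qs Q j hm hp, norm_mul, Real.mul_rpow (norm_nonneg _) (norm_nonneg _), norm_pow _ m,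
    ← Real.rpow_natCast _ m, ← Real.rpow_mul (norm_nonneg _), mul_div_cancel₀ _ m0, Real.rpow_two,
    mul_comm]

theorem φs_wt {m : ℕ} (hm : 0 < m) {p : Fin r → Vp ν} (hp : p ∈ C.Fk a) :
    ENNReal.ofReal (‖C.φs j (Fin r) a p‖ ^ 2 * C.wt (C.qs Q j m) m a p) =
      ‖N.dt (C.tf Q j a) p‖ₑ ^ (2 / m : ℝ) := by
  rw [wt_qs Q j hm hp, φs, map_pow, ← mul_assoc, ← mul_pow, ← norm_mul,
    one_div_mul_cancel (pow_ne_zero _ (Dp_ne hp)), norm_one, one_pow, one_mul, ← ofReal_norm,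
    ENNReal.ofReal_rpow_of_nonneg (norm_nonneg _) (by positivity)]

theorem φs_perm (p : κ → Vp ν) (σ : Equiv.Perm κ) :
    C.φs j κ a (fun k => p (σ k)) = C.φs j κ a p := by
  rw [φs, φs, map_pow, map_pow, Dp_perm]

theorem φs_hol {E : Type} [NormedAddCommGroup E] [NormedSpace ℂ E] {φ : E → A} (O : Set E) {e : E}
    (h : Plot C.S0 φ e) {p : κ → Vp ν} (hp : p ∈ C.Fk (φ e)) :
    HolAt (C.tot φ O) (fun y => C.φs j κ (φ y.1) y.2) (e, p) :=
  (HolAt.of_analyticAt analyticAt_const).div (C.hol_evp h p _) (by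
    rw [map_pow]
    exact pow_ne_zero _ (Dp_ne hp))

theorem ana_evp (ha : a ∈ C.S0) (q : MvPolynomial (κ × Option ν) R) (p : κ → Vp ν) :
    AnalyticAt ℂ (fun p => C.evp a p q) p :=
  C.kb_an (kb_const ha p) q (analyticAt_pi_iff.2 fun i => by
    obtain ⟨k, _ | l⟩ := i
    · exact analyticAt_snd.comp (kb_app analyticAt_id k)
    · exact kb_app (analyticAt_fst.comp (kb_app analyticAt_id k)) l)

theorem full_qs {m : ℕ} (hm : 0 < m) (ha : a ∈ C.S0)
    (hs : C.Sat (Fin r) (C.tf Q j a) ((m - 1) / m) a) {g : MvPolynomial (Fin r × ν) ℂ} (g0 : g ≠ 0)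
    (hg : ∀ p ∈ C.Fk a, eval (xs p) g ≠ 0 → C.evp a p (C.qs Q j m) ≠ 0) :
    Full C (C.qs Q j m) m ⊤ a fun _ : Unit => C.φs j (Fin r) a := fun h ψ h0 hol inv fin => by
  have m0 : (0 : ℝ) < m := Nat.cast_pos.2 hm
  have m1 : (1 : ℝ) ≤ m := Nat.one_le_cast.2 hm
  set P := (Matrix.of fun k i => rename (Prod.mk k) (Q i) : Matrix (Fin r) (Fin r)
    (MvPolynomial (Fin r × Option ν) R)).det with hP
  obtain ⟨t, ht⟩ := hs h (fun p => ψ p * C.evp a p P) h0
    (fun p hp hh => (hol p hp hh).mul (HolAt.of_analyticAt (ana_evp ha P p))) (by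
      refine lt_of_le_of_lt (lintegral_mono_ae (g := fun p => ((r.factorial : ℝ≥0∞) ^ 2) ^
        ((m - 1) / m : ℝ) * ENNReal.ofReal (‖ψ p‖ ^ 2 * C.wt (C.qs Q j m) m a p))
        ((C.ae ha one_ne_zero).mono fun p hp => ?_)) ?_
      · have e : 2 * (1 - (m - 1) / m : ℝ) = 2 / m := by field_simp; ring
        have a := det_wt_le (fun k => C.tf Q j a (p k)) (c := (m - 1) / m) (by positivity)
        rw [e, Fintype.card_fin] at a
        simp only [hP, evp_det Q j hp.1, wt_qs Q j hm hp.1]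
        rw [mul_comm (N.dt _ _), ← mul_assoc (ψ p), norm_mul, mul_pow, norm_mul, mul_pow,
          ← mul_assoc (‖ψ p‖ ^ 2), ENNReal.ofReal_mul (by positivity),
          ENNReal.ofReal_mul (by positivity) (q := _ ^ (2 / m : ℝ)), mul_assoc,
          mul_left_comm (_ ^ ((m - 1) / m : ℝ)),
          ENNReal.ofReal_pow (norm_nonneg _), ← ENNReal.ofReal_rpow_of_nonneg (norm_nonneg _)
          (by positivity), ofReal_norm]
        exact mul_le_mul_right a _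
      · have : ((r.factorial : ℝ≥0∞) ^ 2) ^ ((m - 1) / m : ℝ) ≠ ⊤ :=
          ENNReal.rpow_ne_top_of_nonneg (by positivity) (by finiteness)
        rw [lintegral_const_mul' _ _ this]
        exact ENNReal.mul_lt_top this.lt_top fin)
  refine ⟨fun _ => (∑ I, t I * (Matrix.of fun i l => if I l = i then (1 : ℂ) else 0).det) /
    r.factorial, g * ∏ σ : Equiv.Perm (Fin r), rename (Prod.map σ id) h, mul_ne_zero g0
    (Finset.prod_ne_zero_iff.2 fun σ _ => (map_ne_zero_iff _ (rename_injective _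
      (σ.injective.prodMap Function.injective_id))).2 h0), fun p hp hh => ?_⟩
  rw [map_mul, map_prod] at hh
  have d0 := pow_ne_zero j (Dp_ne hp)
  have s0 : N.dt (C.tf Q j a) p ≠ 0 := left_ne_zero_of_mul
    (evp_qs Q j hm hp ▸ hg p hp (left_ne_zero_of_mul hh))
  have e := sum_sign t fun k => C.tf Q j a (p k)
  rw [Finset.sum_congr rfl (g := fun _ => ψ p * C.evp a p (C.Dp (Fin r)) ^ j * N.dt (C.tf Q j a) p)
    fun σ _ => ?_] at e
  · rw [Finset.sum_const, Finset.card_univ, Fintype.card_perm, Fintype.card_fin, nsmul_eq_mul,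
      ← mul_assoc] at e
    simp only [Finset.univ_unique, Finset.sum_singleton, ← mul_right_cancel₀ s0 e, φs, map_pow]
    have : (r.factorial : ℂ) ≠ 0 := Nat.cast_ne_zero.2 r.factorial_ne_zero
    field_simp
  · have b := Finset.prod_ne_zero_iff.1 (right_ne_zero_of_mul hh) σ (Finset.mem_univ _)
    rw [eval_rename] at b
    rw [← ht _ (fun k => hp (σ k)) b, inv σ trivial, hP, evp_det Q j fun k => hp (σ k), Dp_perm,
      dt_perm]
    rcases Int.units_eq_one_or (Equiv.Perm.sign σ) with h | h <;> simp [h] <;> ring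

end FC

end

end Pool.Agent.Lib.MP_5c318e_ag.Ku
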