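import Pool.Agent.Lib.MP_5c318e_ag.Ku.Kum
import Pool.Agent.Lib.MP_5c318e_ag.T1.Line
import Pool.Agent.Lib.MP_5c318e_ag.T1.Sig
import Pool.Agent.Lib.MP_5c318e_ag.Z.KDefs
import Pool.Agent.Lib.MP_5c318e_ag.G.Lin
import Pool.Agent.Lib.MP_5c318e_ag.D.Shr
import Pool.Agent.Lib.MP_5c318e_ag.D.Bas
import Pool.Agent.Lib.MP_5c318e_ag.D.ReD
import Pool.Agent.Lib.MP_5c318e_ag.S.Sat
import Pool.Agent.Lib.MP_5c318e_ag.C.Siz

/-! The variation whose Hodge line has the norm `D`. -/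

set_option autoImplicit false
set_option linter.unusedSectionVars false

namespace Pool.Agent.Lib.MP_5c318e_ag

open Matrix Filter Topology MeasureTheory Set
open Pool.Agent.Lib.MP_5c318e_ag.V Pool.Agent.Lib.MP_5c318e_ag.Ku Pool.Agent.Lib.MP_5c318e_ag.G
open scoped ENNReal

noncomputable section

theorem Ind.dense_dt {S : Type} [TopologicalSpace S] [MeasurableSpace S] [BorelSpace S] [T2Space S]
    [SigmaCompactSpace S] [SecondCountableTopology S] {r : ℕ} {τ : Fin r → S → ℂ} (h : Ind τ) :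
    Dense {x : Fin r → S | N.dt (fun p i => τ i p) x ≠ 0} := by
  refine dense_iff_inter_open.2 fun U hU hne => by_contra fun hn => ?_
  have a := h.pi (κ := Fin r) U hU hne (fun I => ∑ σ : Equiv.Perm (Fin r),
    if ⇑σ = I then ((Equiv.Perm.sign σ : ℤ) : ℂ) else 0) fun x hx => by
      rw [← det_eq_sum fun k i => τ i (x k)]
      exact by_contra fun h0 => hn ⟨x, hx, h0⟩
  have b := congrFun a id
  rw [Finset.sum_eq_single (1 : Equiv.Perm (Fin r))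
    (fun σ _ h1 => if_neg fun e : ⇑σ = id => h1 (Equiv.ext (congrFun e))) (by simp)] at b
  simp at b

variable {δ ν K M : Type} [Fintype δ] [DecidableEq δ] [Fintype ν] [DecidableEq ν]
  [Field K] [Algebra ℂ K] [Field M] [Algebra ℂ M] [Algebra K M] [IsScalarTower ℂ K M]

theorem Fam.t1 {B : Cht δ K} (T : Fam B ν M)
    (hc : ∀ b : Pt B.O, MvPolynomial.map (b.hom : B.O →+* ℂ) T.finX.Δ ≠ 0) {r m : ℕ}
    (τ : Fin r → T.X.O) (hm : 0 < m) (hi : ∀ b, Ind fun i (p : T.Fib b) => p.1 (τ i))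
    (hs : Dense {b | (T.fib b).Sat (fun i p => p.1 (τ i)) ((m - 1) / m)})
    (bd : ∀ b, ∃ c, c ≠ ⊤ ∧ ∀ᶠ b' in 𝓝 b, N.nD (T.fib b').μ (T.fr τ b') (2 / m) ≤ c)
    (pos : ∀ b, N.nD (T.fib b).μ (T.fr τ b) (2 / m) ≠ 0) :
    ∃ e : B.O, e ≠ 0 ∧ ∀ (X : Type) [TopologicalSpace X] [MeasurableSpace X] [T2Space X]
      [SigmaCompactSpace X] [PreconnectedSpace X] [Nonempty X] (D : RD δ X) (ρ : X → Pt B.O)
      (q : (δ → ℂ) → ℂ), RMap D B.D ρ → Prp D q → (∀ x, ρ x e ≠ 0) →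
      ∃ (k w : ℕ) (W : Pk D (Fin k) w) (om : W.Bt → Fin k → ℂ), HL W om ∧
        ∀ x, W.N om x = (N.nD (T.fib (ρ x)).μ (T.fr τ (ρ x)) (2 / m)).toReal := by
  obtain ⟨Q, j, hQ⟩ := (T.par hc).exists_frac' τ
  replace hQ := fun b => hQ _ (T.par_mem hc b) b (T.par_b hc b)
  have hd : ∀ b (x : Fin r → T.Fib b),
      N.dt ((T.par hc).fc.tf Q j (T.embB b)) (T.embk x) = N.dt (T.fr τ b) x := fun b x => by
    simp only [N.dt, Fam.embk]
    congr 2
    ext k i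
    exact hQ b (x k) i
  have m1 : (1 : ℝ) ≤ m := Nat.one_le_cast.2 hm
  obtain ⟨e, e0, he⟩ := kum (T.par hc).fc ((T.par hc).fc.qs Q j m) hm (by
    rintro _ ⟨b, rfl⟩ p hp
    have hr := (T.par hc).range_embk' (κ := Fin r) (T.par_mem hc b) (T.par_b hc b)
    obtain ⟨x, rfl⟩ := hr.ge hp
    have := (T.fib b).secondCountable
    refine map_mem_closure (((T.fib_emb (hc b)).1.pi _ (T.fibs_π' b)).ind.continuous)
      ((hi b).dense_dt x) fun x hx => ⟨hr.le ⟨x, rfl⟩, ?_⟩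
    rw [FC.evp_qs Q j hm (hr.le ⟨x, rfl⟩), hd]
    exact mul_ne_zero hx (pow_ne_zero _ (pow_ne_zero _ (FC.Dp_ne (hr.le ⟨x, rfl⟩)))))
  refine ⟨e, e0, fun X _ _ _ _ _ _ D ρ q R P hρ => ?_⟩
  have oρ := R.loc.isOpenMap
  have hS : T.embB '' range ρ ⊆ (T.par hc).fc.S0 := image_subset_range _ _
  obtain ⟨n, w, ⟨Km⟩⟩ := he _ hS (by
    rintro _ ⟨_, ⟨x, rfl⟩, rfl⟩
    rw [T.par_ev]
    exact hρ x) (T.embB_emb.charted oρ.isOpen_range)
    ((isPreconnected_range R.cont).image _ T.embB_emb.ind.continuous.continuousOn)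
  have hj : ∀ y, Plot (T.embB '' range ρ) (fun z => T.embB (ρ (D.sec y z))) (D.π y) := fun y =>
    ⟨(R.eq y ▸ T.embB_emb.ana (ρ y)).congr (R.germ T.embB y).symm,
      Eventually.of_forall fun _ => ⟨_, ⟨_, rfl⟩, rfl⟩⟩
  obtain ⟨u, h1, h2, h3, h4, h5⟩ := Km.line hS hm ⊤ (fun σ _ a _ p hp => FC.qs_perm Q j hm hp σ) hj
    (φ0 := (T.par hc).fc.φs j (Fin r))
    (fun φ O z h p hp => FC.φs_hol j O ⟨h.1, h.2.mono fun _ h => hS h⟩ hp)
    (fun σ _ a p => FC.φs_perm j p σ)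
    (Dn := fun y => N.nD (T.fib (ρ y)).μ (T.fr τ (ρ y)) (2 / m)) (fun y => by
      rw [(T.par hc).lintegral' (T.par_mem hc _) (T.par_b hc _)]
      refine lintegral_congr fun x => ?_
      rw [FC.φs_wt Q j hm (((T.par hc).range_embk' (T.par_mem hc _) (T.par_b hc _)).le ⟨x, rfl⟩), hd])
    (fun y => (bd (ρ y)).imp fun _ h => ⟨h.1, R.cont.continuousAt.eventually h.2⟩)
    (fun y => pos _) ((hs.preimage oρ).mono fun y hy => FC.full_qs Q j hm (T.par_mem hc _)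
      ((T.par hc).sat' (T.par_mem hc _) (T.par_b hc _) (hQ _) (by positivity) hy (hi _))
      (Km.g_ne _ ⟨_, ⟨y, rfl⟩, rfl⟩) fun p hp h => Km.q_ne _ ⟨_, ⟨y, rfl⟩, rfl⟩ p
        ⟨hp, by rwa [MvPolynomial.eval₂_eq_eval_map]⟩)
  obtain ⟨k, W, om, H, hN⟩ := exists_hl P Km.W _ hj h1 h2 h3 h4
  exact ⟨k, w, W, om, H, fun x => (hN x).trans (h5 x)⟩

theorem Dat.pkg (d : Dat δ K ν M) : ∃ d1 : Dat δ K ν M, d.Re d1 ∧ Nonempty d1.Pkg := by
  have hm : 0 < d.m := by have := d.hm; omega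
  have := d.B.D.openPos
  obtain ⟨e, e0, he⟩ := d.T.t1 d.cov d.τ hm (fun b U hU hne a h => d.indF b U hU hne a h)
    (Measure.dense_of_ae (d.T.sat hm d.span)) (fun b => by
      obtain ⟨u, ⟨L, hL, hu⟩, -, h⟩ := d.nD_up
      refine ⟨ENNReal.ofReal (Real.exp (L * (d.B.siz b + 1) + L)), ENNReal.ofReal_ne_top, ?_⟩
      filter_upwards [d.B.psh.1.cont.continuousAt.eventually (gt_mem_nhds (lt_add_one (d.B.siz b)))]
        with b' hb
      refine (h b').trans (ENNReal.ofReal_le_ofReal ((hu b').trans ?_))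
      gcongr)
    fun b => by
      rw [d.nD_eq]
      exact (ENNReal.ofReal_pos.2 (d.Dd_pos b)).ne'
  obtain ⟨d1, h, hz, hi⟩ := d.shrink d.B.basis {(e : K)}
  have := d1.B.preconnected d1.T.finB
  obtain ⟨k, w, W, om, H, hN⟩ := he _ d1.B.D h.ρ _ ⟨Pt.continuous_res _, fun x => funext fun i => by
      rw [d1.B.π_eq, d.B.π_eq]
      exact congrArg x (Subtype.ext (hz i))⟩ (prp_of_fini d1.B d1.T.finB) fun x h0 => by
    have a : Subalgebra.inclusion h.sub.le e * ⟨_, (hi _ (Finset.mem_singleton_self _)).2⟩ = 1 :=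
      Subtype.ext (mul_inv_cancel₀ fun x => e0 (Subtype.ext x))
    have b := congrArg x a
    rw [map_mul, map_one, show x (Subalgebra.inclusion h.sub.le e) = 0 from h0, zero_mul] at b
    exact zero_ne_one b
  obtain ⟨rk, h1, h2⟩ := Br.exists_rk (V := W) H.ne
  exact ⟨d1, h, ⟨⟨k, w, W, om, H, fun y => (hN y).trans (h.Dd y).1.symm, rk, h1, h2⟩⟩⟩

end

end Pool.Agent.Lib.MP_5c318e_ag
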